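import Pool.Agent.Helper29.H2.St2

set_option autoImplicit false

namespace Pool.Agent.Helper29.H2

open Finset

private theorem fib_CM (κ : Type) [Fintype κ] [DecidableEq κ] (g : ℕ → ℕ) (T S : ℕ) (hS : S < T) :
    ∑ i ∈ (Fintype.piFinset (fun _ : κ => range T)).filter (fun i => ∑ h, i h = S),
      ∏ h, g (i h) ^ 2 = cf g (Fintype.card κ) S := by
  unfold cf
  have h1 : (PowerSeries.mk (fun i => g i ^ 2)) ^ (Fintype.card κ)
      = ∏ _h ∈ (univ : Finset κ), PowerSeries.mk (fun i => g i ^ 2) := by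
    rw [prod_const, Finset.card_univ]
  rw [h1, PowerSeries.coeff_prod]
  refine sum_bij' (fun i _ => Finsupp.equivFunOnFinite.symm i) (fun l _ => (l : κ → ℕ))
    ?_ ?_ ?_ ?_ ?_
  · intro i hi
    rw [mem_filter] at hi
    rw [mem_finsuppAntidiag]
    exact ⟨by simpa using hi.2, subset_univ _⟩
  · intro l hl
    rw [mem_finsuppAntidiag] at hl
    rw [mem_filter, Fintype.mem_piFinset]
    refine ⟨fun h => ?_, hl.1⟩
    rw [mem_range]
    refine lt_of_le_of_lt ?_ hS
    rw [← hl.1]
    exact single_le_sum (f := fun h => l h) (fun _ _ => Nat.zero_le _) (mem_univ h)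
  · intro i _
    rfl
  · intro l _
    ext h
    rfl
  · intro i _
    refine prod_congr rfl fun h _ => ?_
    rw [PowerSeries.coeff_mk]
    rfl

theorem hCm : StCm := by
  intro κ _ _ g w T n0 hT hw
  have h1 : ∀ i : κ → ℕ, w (∑ h, i h) * ∏ h, (g (i h) : ℝ) ^ 2
      = ∑ S ∈ range n0, if ∑ h, i h = S then w S * ∏ h, (g (i h) : ℝ) ^ 2 else 0 := by
    intro i
    rw [sum_ite_eq]
    split_ifs with h
    · rfl
    · rw [mem_range, not_lt] at h
      rw [hw _ h, zero_mul]
  rw [sum_congr rfl fun i _ => h1 i, sum_comm]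
  refine sum_congr rfl fun S hS => ?_
  rw [mem_range] at hS
  rw [← fib_CM κ g T S (lt_of_lt_of_le hS hT), ← sum_filter, ← mul_sum]
  push_cast
  rfl

end Pool.Agent.Helper29.H2
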